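import Pool.Agent.Q44.PE.Stm

set_option autoImplicit false

namespace Pool.Agent.Q277.PE.CN

open Pool.Agent.Q44.PE

/-- ultrametric: a coordinate near a small coordinate is small -/
lemma lt_of_near {L : Type} [NormedField L] [IsUltrametricDist L] {a b : L} (ha : ‖a‖ < 1) (hab : ‖b - a‖ < 1) :
    ‖b‖ < 1 := by
  have h : ‖(b - a) + a‖ ≤ max ‖b - a‖ ‖a‖ := IsUltrametricDist.norm_add_le_max _ _
  rw [sub_add_cancel] at h
  exact lt_of_le_of_lt h (max_lt hab ha)

lemma exists_first {n : ℕ} (p : Fin n → Prop) (h : ∃ i, p i) : ∃ i, p i ∧ ∀ j < i, ¬ p j := by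
  classical
  obtain ⟨i, hi⟩ := h
  have hne : (Finset.univ.filter p).Nonempty := ⟨i, by simp [hi]⟩
  refine ⟨(Finset.univ.filter p).min' hne, ?_, ?_⟩
  · have := Finset.min'_mem _ hne
    simpa using this
  · intro j hj hpj
    have : (Finset.univ.filter p).min' hne ≤ j := Finset.min'_le _ _ (by simp [hpj])
    exact absurd hj (not_lt.mpr this)

lemma exists_norm {L : Type} [NormedField L] {n : ℕ} (x : Fin n → L) (hx : x ≠ 0) : ∃ i, ‖x i‖ = ‖x‖ := by
  have hn : Nonempty (Fin n) := by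
    by_contra h
    exact hx (funext fun i => absurd ⟨i⟩ h)
  obtain ⟨i, hi⟩ := Finite.exists_max (fun i => ‖x i‖)
  refine ⟨i, le_antisymm (norm_le_pi_norm x i) ?_⟩
  exact (pi_norm_le_iff_of_nonneg (norm_nonneg _)).mpr hi

theorem main : E_can := by
  intro L _ _ n x
  refine ⟨?_, ?_, ?_⟩
  · intro hx
    obtain ⟨i, hi, hmin⟩ := exists_first (fun i => ‖x i‖ = ‖x‖) (exists_norm x hx)
    have hpos : 0 < ‖x‖ := norm_pos_iff.mpr hx
    have hxi : x i ≠ 0 := by
      intro h
      rw [h, norm_zero] at hi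
      exact hpos.ne hi
    have hc : ‖(x i)⁻¹‖ = ‖x‖⁻¹ := by rw [norm_inv, hi]
    refine ⟨(x i)⁻¹, inv_ne_zero hxi, ?_, i, ?_, ?_⟩
    · rw [norm_smul, hc, inv_mul_cancel₀ hpos.ne']
    · simp [hxi]
    · intro j hj
      have h1 : ‖x j‖ < ‖x‖ := lt_of_le_of_ne (norm_le_pi_norm x j) (hmin j hj)
      rw [Pi.smul_apply, smul_eq_mul, norm_mul, hc, inv_mul_lt_iff₀ hpos, mul_one]
      exact h1
  · rintro c ⟨hx1, i, hi, hij⟩ ⟨hc1, k, hk, hkj⟩
    have hc : ‖c‖ = 1 := by rwa [norm_smul, hx1, mul_one] at hc1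
    rcases lt_trichotomy i k with h | h | h
    · have := hkj i h
      rw [Pi.smul_apply, smul_eq_mul, norm_mul, hc, hi, norm_one, mul_one] at this
      exact absurd this (lt_irrefl _)
    · subst h
      rw [Pi.smul_apply, smul_eq_mul, hi, mul_one] at hk
      exact hk
    · have h2 := hij k h
      have h3 : ‖(c • x) k‖ = ‖x k‖ := by rw [Pi.smul_apply, smul_eq_mul, norm_mul, hc, one_mul]
      rw [hk, norm_one] at h3
      rw [← h3] at h2
      exact absurd h2 (lt_irrefl _)
  · intro i hx1 hi hij y hy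
    have hnear : ∀ j, ‖y j - x j‖ < 1 := fun j => lt_of_le_of_lt (norm_le_pi_norm (y - x) j) hy
    have hnear' : ∀ j, ‖x j - y j‖ < 1 := fun j => by rw [norm_sub_rev]; exact hnear j
    refine ⟨?_, ?_⟩
    · rintro ⟨-, k, hk, hkj⟩
      rcases lt_trichotomy i k with h | h | h
      · have := lt_of_near (hkj i h) (hnear' i)
        rw [hi, norm_one] at this
        exact absurd this (lt_irrefl _)
      · rw [h]; exact hk
      · have := lt_of_near (hij k h) (hnear k)
        rw [hk, norm_one] at this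
        exact absurd this (lt_irrefl _)
    · intro hyi
      refine ⟨le_antisymm ?_ ?_, i, hyi, fun j hj => lt_of_near (hij j hj) (hnear j)⟩
      · refine (pi_norm_le_iff_of_nonneg zero_le_one).mpr fun j => ?_
        have h : ‖(y j - x j) + x j‖ ≤ max ‖y j - x j‖ ‖x j‖ := IsUltrametricDist.norm_add_le_max _ _
        rw [sub_add_cancel] at h
        refine h.trans (max_le (hnear j).le ?_)
        rw [← hx1]; exact norm_le_pi_norm x j
      · have := norm_le_pi_norm y i
        rwa [hyi, norm_one] at this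

end Pool.Agent.Q277.PE.CN
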